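import Mathlib
import Pool.Agent.K7.H10.LSSc

set_option autoImplicit false

/-!
# MP_024e1e_ag: primeness of LSS ideals of bipartite graphs at `d = m - 1`, negative answer

For every field and every `m ≥ 6`, the graph obtained from `K_{m,m}` by deleting the edges of a
Hamiltonian cycle contains no `K_{a,b}` with `a, b ≥ 1` and `a + b ≥ m`, but its LSS ideal in
dimension `m - 1` is not prime.
-/

universe u

namespace Pool.Agent.Results.MP_024e1e_ag.NotPrime

open Pool.Agent.K7.H10.LSS

/-- The characterisation of primeness in Q1 fails over every field and for every `m ≥ 6` (with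
`n = m`): there is a subgraph `G` of `K_{m,m}` that contains no `K_{a,b}` with `a, b ≥ 1` and
`a + b ≥ m`, while the LSS ideal of `G` in dimension `m - 1` is not prime. -/
theorem result : ∀ (k : Type u) [Field k] (m : ℕ), 6 ≤ m →
    ∃ G : SimpleGraph (Fin m ⊕ Fin m),
      G ≤ completeBipartiteGraph (Fin m) (Fin m) ∧
      (∀ a b : ℕ, 1 ≤ a → 1 ≤ b → m ≤ a + b →
        ¬ (completeBipartiteGraph (Fin a) (Fin b)).IsContained G) ∧
      ¬ (LSSIdeal k G (m - 1)).IsPrime := by
  intro k _ m hm
  obtain ⟨s, rfl⟩ : ∃ s, m = s + 3 := ⟨m - 3, by omega⟩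
  exact ⟨cyc (s + 3), cyc_le _, cyc_free _, not_prime k s (by omega)⟩

end Pool.Agent.Results.MP_024e1e_ag.NotPrime
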